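import Pool.Agent.helper19.HF.SpecC
import Pool.Agent.helper15.HF.LRB

/-!
# Row hz:LRZ (MP_bf63dc_nt): the left-right bound with two slopes
-/

set_option autoImplicit false

namespace Pool.Agent.HF

open Finset

theorem LRZ_tel1 (F : ℤ → ℝ) (δ h : ℤ) (n : ℕ) :
    |F (δ + h * n) - F δ| ≤ ∑ i ∈ range n, |F (δ + h * ((i : ℤ) + 1)) - F (δ + h * ((i : ℤ) + 1) - h)| := by
  induction n with
  | zero => simp
  | succ n ih =>
    rw [Finset.sum_range_succ]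
    have e : F (δ + h * ((n + 1 : ℕ) : ℤ)) - F δ = (F (δ + h * n) - F δ) + (F (δ + h * ((n : ℤ) + 1)) - F (δ + h * ((n : ℤ) + 1) - h)) := by
      have e1 : δ + h * ((n : ℤ) + 1) - h = δ + h * n := by ring
      rw [e1]
      push_cast
      ring
    rw [e]
    exact (abs_add_le _ _).trans (by linarith)

theorem LRZ_tel2 (F : ℤ → ℝ) (δ h : ℤ) (n : ℕ) :
    |F (δ - h * n) - F δ| ≤ ∑ i ∈ range n, |F (δ - h * (i : ℤ)) - F (δ - h * (i : ℤ) - h)| := by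
  induction n with
  | zero => simp
  | succ n ih =>
    rw [Finset.sum_range_succ]
    have e : F (δ - h * ((n + 1 : ℕ) : ℤ)) - F δ = (F (δ - h * n) - F δ) - (F (δ - h * (n : ℤ)) - F (δ - h * (n : ℤ) - h)) := by
      have e1 : δ - h * ((n + 1 : ℕ) : ℤ) = δ - h * (n : ℤ) - h := by push_cast; ring
      rw [e1]
      ring
    rw [e]
    exact (abs_sub _ _).trans (by linarith)

/-- the sum of the steps -/
def LRZ_T (F : ℤ → ℝ) (h : ℤ) (A : ℕ) (δ : ℤ) : ℝ :=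
  ∑ i ∈ range A, (|F (δ + h * ((i : ℤ) + 1)) - F (δ + h * ((i : ℤ) + 1) - h)| + |F (δ - h * (i : ℤ)) - F (δ - h * (i : ℤ) - h)|)

theorem LRZ_tel (F : ℤ → ℝ) (δ h : ℤ) (A : ℕ) (j : ℤ) (hj : j ∈ Icc (-(A : ℤ)) A) : |F (δ + h * j) - F δ| ≤ LRZ_T F h A δ := by
  rw [Finset.mem_Icc] at hj
  unfold LRZ_T
  rw [Finset.sum_add_distrib]
  have n1 : 0 ≤ ∑ i ∈ range A, |F (δ + h * ((i : ℤ) + 1)) - F (δ + h * ((i : ℤ) + 1) - h)| := Finset.sum_nonneg fun _ _ => abs_nonneg _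
  have n2 : 0 ≤ ∑ i ∈ range A, |F (δ - h * (i : ℤ)) - F (δ - h * (i : ℤ) - h)| := Finset.sum_nonneg fun _ _ => abs_nonneg _
  rcases Int.eq_nat_or_neg j with ⟨n, hn | hn⟩
  · subst hn
    have hnA : n ≤ A := by omega
    have h1 := LRZ_tel1 F δ h n
    have h2 : ∑ i ∈ range n, |F (δ + h * ((i : ℤ) + 1)) - F (δ + h * ((i : ℤ) + 1) - h)| ≤
        ∑ i ∈ range A, |F (δ + h * ((i : ℤ) + 1)) - F (δ + h * ((i : ℤ) + 1) - h)| :=
      Finset.sum_le_sum_of_subset_of_nonneg (Finset.range_subset_range.2 hnA) fun _ _ _ => abs_nonneg _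
    linarith
  · subst hn
    have hnA : n ≤ A := by omega
    have h1 := LRZ_tel2 F δ h n
    have h2 : ∑ i ∈ range n, |F (δ - h * (i : ℤ)) - F (δ - h * (i : ℤ) - h)| ≤
        ∑ i ∈ range A, |F (δ - h * (i : ℤ)) - F (δ - h * (i : ℤ) - h)| :=
      Finset.sum_le_sum_of_subset_of_nonneg (Finset.range_subset_range.2 hnA) fun _ _ _ => abs_nonneg _
    have e : δ + h * (-(n : ℤ)) = δ - h * n := by ring
    rw [e]
    linarith

theorem LRZ_shift (g : ℤ → ℝ) (hg : ∀ x, 0 ≤ g x) (I J : Finset ℤ) (c : ℤ) (h : ∀ x ∈ I, x + c ∈ J) : ∑ x ∈ I, g (x + c) ≤ ∑ x ∈ J, g x := by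
  have e : ∑ x ∈ I, g (x + c) = ∑ x ∈ I.map (addRightEmbedding c), g x := by
    rw [Finset.sum_map]
    rfl
  rw [e]
  refine Finset.sum_le_sum_of_subset_of_nonneg ?_ fun x _ _ => hg x
  intro x hx
  obtain ⟨y, hy, rfl⟩ := Finset.mem_map.1 hx
  exact h y hy

theorem LRZ_Tsq (F : ℤ → ℝ) (h : ℤ) (A : ℕ) (I J : Finset ℤ) (M : ℝ) (hM : ∑ x ∈ J, (F x - F (x - h)) ^ 2 ≤ M)
    (h1 : ∀ i < A, ∀ x ∈ I, x + h * ((i : ℤ) + 1) ∈ J ∧ x - h * (i : ℤ) ∈ J) :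
    ∑ δ ∈ I, LRZ_T F h A δ ^ 2 ≤ 4 * (A : ℝ) ^ 2 * M := by
  have hstep : ∀ δ ∈ I, LRZ_T F h A δ ^ 2 ≤ ∑ i ∈ range A, (2 * (A : ℝ) * ((F (δ + h * ((i : ℤ) + 1)) - F (δ + h * ((i : ℤ) + 1) - h)) ^ 2 +
      (F (δ - h * (i : ℤ)) - F (δ - h * (i : ℤ) - h)) ^ 2)) := by
    intro δ _
    unfold LRZ_T
    refine (sq_sum_le_card_mul_sum_sq).trans ?_
    rw [card_range, Finset.mul_sum]
    refine Finset.sum_le_sum fun i _ => ?_
    have hA : (0 : ℝ) ≤ A := Nat.cast_nonneg _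
    rw [mul_comm 2 (A : ℝ), mul_assoc]
    refine mul_le_mul_of_nonneg_left ?_ hA
    have e1 := sq_abs (F (δ + h * ((i : ℤ) + 1)) - F (δ + h * ((i : ℤ) + 1) - h))
    have e2 := sq_abs (F (δ - h * (i : ℤ)) - F (δ - h * (i : ℤ) - h))
    nlinarith [sq_nonneg (|F (δ + h * ((i : ℤ) + 1)) - F (δ + h * ((i : ℤ) + 1) - h)| - |F (δ - h * (i : ℤ)) - F (δ - h * (i : ℤ) - h)|)]
  refine (Finset.sum_le_sum hstep).trans ?_
  rw [Finset.sum_comm]
  have hrow : ∀ i ∈ range A, ∑ δ ∈ I, (2 * (A : ℝ) * ((F (δ + h * ((i : ℤ) + 1)) - F (δ + h * ((i : ℤ) + 1) - h)) ^ 2 +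
      (F (δ - h * (i : ℤ)) - F (δ - h * (i : ℤ) - h)) ^ 2)) ≤ 2 * (A : ℝ) * (2 * M) := by
    intro i hi
    rw [← Finset.mul_sum, Finset.sum_add_distrib]
    have hA : (0 : ℝ) ≤ A := Nat.cast_nonneg _
    refine mul_le_mul_of_nonneg_left ?_ (by positivity)
    have s1 := LRZ_shift (fun x => (F x - F (x - h)) ^ 2) (fun _ => sq_nonneg _) I J (h * ((i : ℤ) + 1)) (fun x hx => (h1 i (Finset.mem_range.1 hi) x hx).1)
    have s2 := LRZ_shift (fun x => (F x - F (x - h)) ^ 2) (fun _ => sq_nonneg _) I J (-(h * (i : ℤ)))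
      (fun x hx => by rw [← sub_eq_add_neg]; exact (h1 i (Finset.mem_range.1 hi) x hx).2)
    simp only [← sub_eq_add_neg] at s2
    beta_reduce at s1 s2
    linarith
  refine (Finset.sum_le_sum hrow).trans (le_of_eq ?_)
  rw [Finset.sum_const, card_range, nsmul_eq_mul]
  ring

theorem LRZ_cheb (κ M : ℝ) (R : ℕ) (T : ℤ → ℝ) (I : Finset ℤ) (hR : 1 ≤ R) (hκ : 0 < κ) (h : ∑ δ ∈ I, (T δ) ^ 2 ≤ M * (R : ℝ) ^ 3) :
    (#{δ ∈ I | κ * R ≤ T δ} : ℝ) ≤ M / κ ^ 2 * R := by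
  have hR0 : (0 : ℝ) < R := by exact_mod_cast hR
  have h1 : (#{δ ∈ I | κ * R ≤ T δ} : ℝ) * (κ * R) ^ 2 ≤ ∑ δ ∈ I, (T δ) ^ 2 := by
    rw [← nsmul_eq_mul, ← Finset.sum_const]
    refine (Finset.sum_le_sum fun δ hδ => ?_).trans (Finset.sum_le_sum_of_subset_of_nonneg (Finset.filter_subset _ _) fun δ _ _ => sq_nonneg (T δ))
    exact pow_le_pow_left₀ (by positivity) (Finset.mem_filter.1 hδ).2 2
  have h2 := h1.trans h
  rw [div_mul_eq_mul_div, le_div_iff₀ (by positivity)]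
  have h6 : ((#{δ ∈ I | κ * R ≤ T δ} : ℝ) * κ ^ 2) * (R : ℝ) ^ 2 ≤ (M * R) * (R : ℝ) ^ 2 := by
    nlinarith
  exact le_of_mul_le_mul_right h6 (by positivity)

open Classical in
theorem LRZ_ct (a b : ℕ) (S S' : Finset ℕ) (I : Finset ℤ) (P : ℤ → Prop) :
    ∑ δ ∈ I with ¬ P δ, (ctz a b S S' δ : ℝ) ≤ ∑ u ∈ S, ∑ v ∈ S', (if P ((a : ℤ) * (u : ℕ) - b * (v : ℕ)) then (0 : ℝ) else 1) := by
  have h0 : ∀ δ : ℤ, (ctz a b S S' δ : ℝ) = ∑ z ∈ S ×ˢ S', (if δ = (a : ℤ) * (z.1 : ℕ) - b * (z.2 : ℕ) then (1 : ℝ) else 0) := by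
    intro δ
    unfold ctz
    rw [Finset.card_filter]
    push_cast
    refine Finset.sum_congr rfl fun z _ => ?_
    by_cases h : δ = (a : ℤ) * (z.1 : ℕ) - b * (z.2 : ℕ)
    · rw [if_pos h, if_pos h.symm]
    · rw [if_neg h, if_neg (fun h' => h h'.symm)]
  have e : ∑ u ∈ S, ∑ v ∈ S', (if P ((a : ℤ) * (u : ℕ) - b * (v : ℕ)) then (0 : ℝ) else 1) =
      ∑ z ∈ S ×ˢ S', (if P ((a : ℤ) * (z.1 : ℕ) - b * (z.2 : ℕ)) then (0 : ℝ) else 1) := by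
    rw [Finset.sum_product]
  rw [e, Finset.sum_congr rfl fun δ _ => h0 δ, Finset.sum_comm]
  refine Finset.sum_le_sum fun z _ => ?_
  rw [Finset.sum_ite_eq']
  by_cases hb : P ((a : ℤ) * (z.1 : ℕ) - b * (z.2 : ℕ))
  · rw [if_neg, if_pos hb]
    intro h
    exact (Finset.mem_filter.1 h).2 hb
  · rw [if_neg hb]
    split_ifs <;> norm_num

open Classical in
theorem LRZ_h3 (P : ℤ → Prop) (ε₁ t : ℝ) (a b R : ℕ) (f f' : ℕ → ℝ) (ht : 0 ≤ t) (hf : ∀ u, 0 ≤ f u ∧ f u ≤ 1) (hf' : ∀ u, 0 ≤ f' u ∧ f' u ≤ 1)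
    (h3 : H3Z P ε₁ a b R f f') :
    t ^ 2 * ∑ u ∈ range R with t ≤ f u, ∑ v ∈ range R with t ≤ f' v, (if P ((a : ℤ) * (u : ℕ) - b * (v : ℕ)) then (0 : ℝ) else 1) ≤ ε₁ * (R : ℝ) ^ 2 := by
  refine le_trans ?_ h3
  rw [Finset.mul_sum]
  refine (Finset.sum_le_sum fun u hu => ?_).trans (Finset.sum_le_sum_of_subset_of_nonneg (Finset.filter_subset (fun u => t ≤ f u) (range R)) fun u _ _ => ?_)
  · rw [Finset.mul_sum]
    refine (Finset.sum_le_sum fun v hv => ?_).trans (Finset.sum_le_sum_of_subset_of_nonneg (Finset.filter_subset (fun v => t ≤ f' v) (range R)) fun v _ _ => ?_)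
    · by_cases hb : P ((a : ℤ) * (u : ℕ) - b * (v : ℕ))
      · simp [hb]
      · rw [if_neg hb, if_neg hb, mul_one, sq]
        exact mul_le_mul (Finset.mem_filter.1 hu).2 (Finset.mem_filter.1 hv).2 ht (hf u).1
    · split_ifs
      · exact le_rfl
      · exact mul_nonneg (hf u).1 (hf' v).1
  · refine Finset.sum_nonneg fun v _ => ?_
    split_ifs
    · exact le_rfl
    · exact mul_nonneg (hf u).1 (hf' v).1

open Classical in
/-- the number of bad `δ` with `ctz δ` not small -/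
theorem LRZ_A (P : ℤ → Prop) (ε₁ t κ : ℝ) (a b R : ℕ) (f f' : ℕ → ℝ) (I : Finset ℤ) (hR : 1 ≤ R) (hκ : 0 < κ) (ht : 0 < t) (hf : ∀ u, 0 ≤ f u ∧ f u ≤ 1) (hf' : ∀ u, 0 ≤ f' u ∧ f' u ≤ 1)
    (h3 : H3Z P ε₁ a b R f f') :
    (#{δ ∈ I | ¬ P δ ∧ κ * R ≤ ctz a b {u ∈ range R | t ≤ f u} {u ∈ range R | t ≤ f' u} δ} : ℝ) ≤ ε₁ / (κ * t ^ 2) * R := by
  have hR0 : (0 : ℝ) < R := by exact_mod_cast hR
  have h1 : (#{δ ∈ I | ¬ P δ ∧ κ * R ≤ ctz a b {u ∈ range R | t ≤ f u} {u ∈ range R | t ≤ f' u} δ} : ℝ) * (κ * R) ≤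
      ∑ δ ∈ I with ¬ P δ, (ctz a b {u ∈ range R | t ≤ f u} {u ∈ range R | t ≤ f' u} δ : ℝ) := by
    rw [← nsmul_eq_mul, ← Finset.sum_const]
    refine (Finset.sum_le_sum fun δ hδ => (Finset.mem_filter.1 hδ).2.2).trans (Finset.sum_le_sum_of_subset_of_nonneg ?_ fun δ _ _ => Nat.cast_nonneg _)
    intro δ hδ
    have := Finset.mem_filter.1 hδ
    exact Finset.mem_filter.2 ⟨this.1, this.2.1⟩
  have h2 := h1.trans (LRZ_ct _ _ _ _ _ _)
  have h4 := LRZ_h3 P ε₁ t a b R f f' ht.le hf hf' h3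
  have h5 : t ^ 2 * ((#{δ ∈ I | ¬ P δ ∧ κ * R ≤ ctz a b {u ∈ range R | t ≤ f u} {u ∈ range R | t ≤ f' u} δ} : ℝ) * (κ * R)) ≤ ε₁ * (R : ℝ) ^ 2 :=
    (mul_le_mul_of_nonneg_left h2 (sq_nonneg t)).trans h4
  rw [div_mul_eq_mul_div, le_div_iff₀ (by positivity)]
  have h6 : (t ^ 2 * ((#{δ ∈ I | ¬ P δ ∧ κ * R ≤ ctz a b {u ∈ range R | t ≤ f u} {u ∈ range R | t ≤ f' u} δ} : ℝ) * κ)) * R ≤ (ε₁ * R) * R := by
    nlinarith
  have h7 := le_of_mul_le_mul_right h6 hR0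
  linarith

open Classical in
/-- the upper bound -/
theorem LRZ_up (P : ℤ → Prop) (p q : ℕ) (L U : ℤ) :
    ∑ w ∈ Ico L U, (#{d ∈ range p | P (w + q * (d : ℕ))} : ℝ) ≤ p * ((#{δ ∈ Ico L U | P δ} : ℝ) + q * p) := by
  have h0 : ∀ w : ℤ, (#{d ∈ range p | P (w + q * (d : ℕ))} : ℝ) = ∑ d ∈ range p, (if P (w + q * (d : ℕ)) then (1 : ℝ) else 0) := by
    intro w
    rw [Finset.card_filter]
    push_cast
    rfl
  rw [Finset.sum_congr rfl fun w _ => h0 w, Finset.sum_comm]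
  have h1 : ∀ d ∈ range p, ∑ w ∈ Ico L U, (if P (w + q * (d : ℕ)) then (1 : ℝ) else 0) ≤ (#{δ ∈ Ico L U | P δ} : ℝ) + q * p := by
    intro d hd
    have e0 : ∑ w ∈ Ico L U, (if P (w + q * (d : ℕ)) then (1 : ℝ) else 0) = (#{w ∈ Ico L U | P (w + q * (d : ℕ))} : ℝ) := by
      rw [Finset.card_filter]
      push_cast
      rfl
    rw [e0]
    have e1 : #{w ∈ Ico L U | P (w + q * (d : ℕ))} ≤ #({δ ∈ Ico L U | P δ} ∪ Ico U (U + q * p)) := by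
      refine Finset.card_le_card_of_injOn (fun w => w + q * (d : ℕ)) ?_ ?_
      · intro w hw
        have hw1 := Finset.mem_filter.1 (Finset.mem_coe.1 hw)
        have hw2 := Finset.mem_Ico.1 hw1.1
        have hd' := Finset.mem_range.1 hd
        have hq : (0 : ℤ) ≤ q * (d : ℕ) := by positivity
        have hq2 : (q : ℤ) * (d : ℕ) ≤ q * p := by
          have : (d : ℤ) ≤ p := by exact_mod_cast hd'.le
          exact mul_le_mul_of_nonneg_left this (by positivity)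
        apply Finset.mem_coe.2
        apply Finset.mem_union.2
        by_cases hc : w + q * (d : ℕ) < U
        · exact Or.inl (Finset.mem_filter.2 ⟨Finset.mem_Ico.2 ⟨by linarith [hw2.1], hc⟩, hw1.2⟩)
        · exact Or.inr (Finset.mem_Ico.2 ⟨not_lt.1 hc, by linarith [hw2.2]⟩)
      · intro w _ w' _ he
        simp only at he
        linarith
    have e2 : #(Ico U (U + q * p)) = q * p := by
      rw [Int.card_Ico]
      have : U + q * p - U = ((q * p : ℕ) : ℤ) := by push_cast; ring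
      rw [this, Int.toNat_natCast]
    have e3 := e1.trans (Finset.card_union_le _ _)
    rw [e2] at e3
    have e4 : (#{w ∈ Ico L U | P (w + q * (d : ℕ))} : ℝ) ≤ ((#{δ ∈ Ico L U | P δ} + q * p : ℕ) : ℝ) := by exact_mod_cast e3
    push_cast at e4
    exact e4
  refine (Finset.sum_le_sum h1).trans (le_of_eq ?_)
  rw [Finset.sum_const, card_range, nsmul_eq_mul]

theorem LRZ (h1 : APZ_stmt) (h2 : LAZ_stmt) : LRZ_stmt := by
  classical
  intro a b ha hb e he he1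
  obtain ⟨τ, κ, hτ, hκ, p₁, hLRA⟩ := h2 a b ha hb (e / 4) (by positivity) (by linarith)
  -- the numbers
  obtain ⟨A, hA⟩ : ∃ A : ℕ, A = a + b := ⟨_, rfl⟩
  have hA2 : 2 ≤ A := by omega
  have hA0 : (0 : ℝ) < A := by exact_mod_cast (by omega : 0 < A)
  obtain ⟨m, hm⟩ : ∃ m : ℝ, m = 2 * (A : ℝ) + 1 := ⟨_, rfl⟩
  have hm0 : 0 < m := by rw [hm]; positivity
  obtain ⟨κ₃, hκ₃⟩ : ∃ κ₃ : ℝ, κ₃ = κ / (2 * m) := ⟨_, rfl⟩
  have hκ₃0 : 0 < κ₃ := by rw [hκ₃]; positivity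
  obtain ⟨Q, hQ, hAPZ⟩ := h1 a b ha hb (e / 4) (τ * e * κ₃ ^ 2 / (128 * (A : ℝ) ^ 2)) (by positivity) (by positivity)
  refine ⟨τ * e / (64 * A), τ * e * κ₃ * (e / 16) ^ 2 / 32, Q, by positivity, by positivity, hQ, fun l₀ => ?_⟩
  obtain ⟨p, hp, hpp⟩ := Nat.exists_infinite_primes (max p₁ l₀)
  refine ⟨A * (p * Q) + ⌈64 * ((p : ℝ) * Q) / e⌉₊ + ⌈32 * ((p : ℝ) * Q) / (τ * e)⌉₊ + 1, fun R hR P γ hγ hγ1 hH1 hH2 f f' hf hf' hH3 hs hs' => ?_⟩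
  by_contra hcon
  rw [not_le] at hcon
  have hR1 : 1 ≤ R := by omega
  have hR0 : (0 : ℝ) < R := by exact_mod_cast hR1
  have hApQ : A * (p * Q) ≤ R := by omega
  have hpQ : p * Q ≤ R := le_trans (Nat.le_mul_of_pos_left _ (by omega)) hApQ
  have r2 : 64 * ((p : ℝ) * Q) ≤ e * R := by
    have h3 : (⌈64 * ((p : ℝ) * Q) / e⌉₊ : ℝ) ≤ R := by exact_mod_cast (by omega : ⌈64 * ((p : ℝ) * Q) / e⌉₊ ≤ R)
    have h4 := (Nat.le_ceil _).trans h3
    rw [div_le_iff₀ he] at h4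
    linarith
  have r3 : 32 * ((p : ℝ) * Q) ≤ τ * e * R := by
    have h3 : (⌈32 * ((p : ℝ) * Q) / (τ * e)⌉₊ : ℝ) ≤ R := by exact_mod_cast (by omega : ⌈32 * ((p : ℝ) * Q) / (τ * e)⌉₊ ≤ R)
    have h4 := (Nat.le_ceil _).trans h3
    rw [div_le_iff₀ (by positivity)] at h4
    linarith
  have hp0 : (0 : ℝ) < p := by exact_mod_cast hpp.pos
  have hS := LRB_S f R (e / 16) (by positivity) hf
  have hS' := LRB_S f' R (e / 16) (by positivity) hf'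
  obtain ⟨S, hSdef⟩ : ∃ S : Finset ℕ, S = {u ∈ range R | e / 16 ≤ f u} := ⟨_, rfl⟩
  obtain ⟨S', hSdef'⟩ : ∃ S' : Finset ℕ, S' = {u ∈ range R | e / 16 ≤ f' u} := ⟨_, rfl⟩
  rw [← hSdef] at hS
  rw [← hSdef'] at hS'
  have hSR : S ⊆ range R := by rw [hSdef]; exact Finset.filter_subset _ _
  have hSR' : S' ⊆ range R := by rw [hSdef']; exact Finset.filter_subset _ _
  have heR : 0 < e * R := by positivity
  have hSσ : e / 4 * R ≤ (#S : ℝ) := by linarith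
  have hSσ' : e / 4 * R ≤ (#S' : ℝ) := by linarith
  obtain ⟨q, hq1, hqQ, hper⟩ := hAPZ p R S S' hR1 hpQ hSR hSR' hSσ
  have hqQ' : (p : ℝ) * q ≤ (p : ℝ) * Q := mul_le_mul_of_nonneg_left (by exact_mod_cast hqQ) hp0.le
  obtain ⟨Ω, hΩ, hΩc, hΩd⟩ := hLRA p hpp ((le_max_left _ _).trans hp) q R S S' (γ + e / 2) hq1 hR1 (by linarith) hSR hSR' hSσ hSσ' (by linarith) (by linarith)
  -- sizes
  have hApqN : A * (p * q) ≤ R := (Nat.mul_le_mul_left A (Nat.mul_le_mul_left p hqQ)).trans hApQ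
  have hApq : (A : ℤ) * (p * q) ≤ R := by exact_mod_cast hApqN
  have hpqN : p * q ≤ R := (Nat.mul_le_mul_left p hqQ).trans hpQ
  have hpq : (p : ℤ) * q ≤ R := by exact_mod_cast hpqN
  have hpq0 : (0 : ℤ) ≤ (p : ℤ) * q := by positivity
  have hRZ : (1 : ℤ) ≤ R := by exact_mod_cast hR1
  have haR : (R : ℤ) ≤ a * R := by
    have : (1 : ℤ) ≤ a := by exact_mod_cast ha
    nlinarith
  have hbR : (R : ℤ) ≤ b * R := by
    have : (1 : ℤ) ≤ b := by exact_mod_cast hb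
    nlinarith
  obtain ⟨I, hI⟩ : ∃ I : Finset ℤ, I = Icc (-(b * R : ℤ)) (a * R + p * q) := ⟨_, rfl⟩
  -- first bad set
  have hBA := LRZ_A P (τ * e * κ₃ * (e / 16) ^ 2 / 32) (e / 16) κ₃ a b R f f' I hR1 hκ₃0 (by positivity) hf hf' hH3
  rw [← hSdef, ← hSdef'] at hBA
  have eA : τ * e * κ₃ * (e / 16) ^ 2 / 32 / (κ₃ * (e / 16) ^ 2) = τ * e / 32 := by
    field_simp
  rw [eA] at hBA
  -- second bad set
  have hTsq := LRZ_Tsq (fun d : ℤ => (ctz a b S S' d : ℝ)) (p * q) A I (Icc (-(2 * (a + b) * R : ℤ)) (2 * (a + b) * R)) _ hper (by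
    intro i hi x hx
    rw [hI, Finset.mem_Icc] at hx
    have hi1 : (i : ℤ) + 1 ≤ A := by exact_mod_cast hi
    have hi0 : (0 : ℤ) ≤ i := by positivity
    have g1 : (p : ℤ) * q * ((i : ℤ) + 1) ≤ R := by nlinarith
    have g2 : (p : ℤ) * q * (i : ℤ) ≤ R := by nlinarith
    have g3 : (0 : ℤ) ≤ (p : ℤ) * q * ((i : ℤ) + 1) := by positivity
    have g4 : (0 : ℤ) ≤ (p : ℤ) * q * (i : ℤ) := by positivity
    rw [Finset.mem_Icc, Finset.mem_Icc]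
    constructor
    · constructor <;> nlinarith [hx.1, hx.2]
    · constructor <;> nlinarith [hx.1, hx.2])
  have hBB := LRZ_cheb κ₃ (4 * (A : ℝ) ^ 2 * (τ * e * κ₃ ^ 2 / (128 * (A : ℝ) ^ 2))) R (LRZ_T (fun d : ℤ => (ctz a b S S' d : ℝ)) (p * q) A) I hR1 hκ₃0 (by
    rw [mul_assoc]
    exact hTsq)
  have eB : 4 * (A : ℝ) ^ 2 * (τ * e * κ₃ ^ 2 / (128 * (A : ℝ) ^ 2)) / κ₃ ^ 2 = τ * e / 32 := by
    field_simp
    norm_num
  rw [eB] at hBB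
  have hcardJ : (#(Icc (-(a + b : ℤ)) (a + b)) : ℝ) = m := by
    rw [Int.card_Icc, hm, hA]
    have : ((a + b : ℤ) + 1 - -(a + b : ℤ)).toNat = 2 * (a + b) + 1 := by omega
    rw [this]
    push_cast
    ring
  have hP := LRB_pairs Ω ({δ ∈ I | ¬ P δ ∧ κ₃ * R ≤ (ctz a b S S' δ : ℝ)} ∪ {δ ∈ I | κ₃ * R ≤ LRZ_T (fun d : ℤ => (ctz a b S S' d : ℝ)) (p * q) A δ}) p q
    (fun w d => κ * R ≤ ∑ j ∈ Icc (-(a + b : ℤ)) (a + b), (ctz a b S S' (w + q * (d : ℕ) + q * p * j) : ℝ) ∧ ¬ P (w + q * (d : ℕ))) (by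
      intro w hw d hd hPd
      have hw1 := Finset.mem_Ico.1 (hΩ hw)
      have hd1 := Finset.mem_range.1 hd
      have hq0 : (0 : ℤ) ≤ q * (d : ℕ) := by positivity
      have hqd : (q : ℤ) * (d : ℕ) ≤ q * p := mul_le_mul_of_nonneg_left (by exact_mod_cast hd1.le) (by positivity)
      have hwI : w + q * (d : ℕ) ∈ I := by
        rw [hI, Finset.mem_Icc]
        constructor
        · linarith [hw1.1]
        · have := mul_comm (q : ℤ) (p : ℤ)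
          linarith [hw1.2]
      rw [Finset.mem_union]
      by_cases hc : κ₃ * R ≤ (ctz a b S S' (w + q * (d : ℕ)) : ℝ)
      · exact Or.inl (Finset.mem_filter.2 ⟨hwI, hPd.2, hc⟩)
      · rw [not_le] at hc
        refine Or.inr (Finset.mem_filter.2 ⟨hwI, ?_⟩)
        have h5 := hPd.1
        have h6 : ∀ j ∈ Icc (-(a + b : ℤ)) (a + b), (ctz a b S S' (w + q * (d : ℕ) + q * p * j) : ℝ) ≤
            κ₃ * R + LRZ_T (fun d : ℤ => (ctz a b S S' d : ℝ)) (p * q) A (w + q * (d : ℕ)) := by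
          intro j hj
          have h7 := LRZ_tel (fun d : ℤ => (ctz a b S S' d : ℝ)) (w + q * (d : ℕ)) (p * q) A j (by
            rw [hA]
            push_cast
            exact hj)
          have h8 := (le_abs_self _).trans h7
          rw [mul_comm (q : ℤ) (p : ℤ)]
          beta_reduce at h8
          linarith
        have h9 := h5.trans (Finset.sum_le_sum h6)
        rw [Finset.sum_const, nsmul_eq_mul, hcardJ] at h9
        have h10 : m * (κ₃ * R) = κ * R / 2 := by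
          rw [hκ₃]
          field_simp
        have h11 : m * (κ₃ * R) ≤ m * LRZ_T (fun d : ℤ => (ctz a b S S' d : ℝ)) (p * q) A (w + q * (d : ℕ)) := by
          rw [mul_add, h10] at h9
          rw [h10]
          linarith
        exact le_of_mul_le_mul_left h11 hm0)
  have hcard : (#({δ ∈ I | ¬ P δ ∧ κ₃ * R ≤ (ctz a b S S' δ : ℝ)} ∪ {δ ∈ I | κ₃ * R ≤ LRZ_T (fun d : ℤ => (ctz a b S S' d : ℝ)) (p * q) A δ}) : ℝ) ≤
      τ * e / 32 * R + τ * e / 32 * R := by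
    have h5 := Finset.card_union_le {δ ∈ I | ¬ P δ ∧ κ₃ * R ≤ (ctz a b S S' δ : ℝ)} {δ ∈ I | κ₃ * R ≤ LRZ_T (fun d : ℤ => (ctz a b S S' d : ℝ)) (p * q) A δ}
    have h6 : (#({δ ∈ I | ¬ P δ ∧ κ₃ * R ≤ (ctz a b S S' δ : ℝ)} ∪ {δ ∈ I | κ₃ * R ≤ LRZ_T (fun d : ℤ => (ctz a b S S' d : ℝ)) (p * q) A δ}) : ℝ) ≤
      (#{δ ∈ I | ¬ P δ ∧ κ₃ * R ≤ (ctz a b S S' δ : ℝ)} : ℝ) + #{δ ∈ I | κ₃ * R ≤ LRZ_T (fun d : ℤ => (ctz a b S S' d : ℝ)) (p * q) A δ} := by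
      exact_mod_cast h5
    exact h6.trans (add_le_add hBA hBB)
  have hcount : ∀ w ∈ Ω, (γ + e / 4) * p ≤ (#{d ∈ range p | P (w + q * (d : ℕ))} : ℝ) +
      #{d ∈ range p | κ * R ≤ ∑ j ∈ Icc (-(a + b : ℤ)) (a + b), (ctz a b S S' (w + q * (d : ℕ) + q * p * j) : ℝ) ∧ ¬ P (w + q * (d : ℕ))} := by
    intro w hw
    have h5 := hΩd w hw
    have h6 : #{d ∈ range p | κ * R ≤ ∑ j ∈ Icc (-(a + b : ℤ)) (a + b), (ctz a b S S' (w + q * (d : ℕ) + q * p * j) : ℝ)} ≤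
        #{d ∈ range p | P (w + q * (d : ℕ))} + #{d ∈ range p | κ * R ≤ ∑ j ∈ Icc (-(a + b : ℤ)) (a + b), (ctz a b S S' (w + q * (d : ℕ) + q * p * j) : ℝ) ∧ ¬ P (w + q * (d : ℕ))} := by
      refine (Finset.card_le_card ?_).trans (Finset.card_union_le _ _)
      intro d hd
      have hd1 := Finset.mem_filter.1 hd
      rw [Finset.mem_union]
      by_cases hb : P (w + q * (d : ℕ))
      · exact Or.inl (Finset.mem_filter.2 ⟨hd1.1, hb⟩)
      · exact Or.inr (Finset.mem_filter.2 ⟨hd1.1, hd1.2, hb⟩)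
    have h7 : (#{d ∈ range p | κ * R ≤ ∑ j ∈ Icc (-(a + b : ℤ)) (a + b), (ctz a b S S' (w + q * (d : ℕ) + q * p * j) : ℝ)} : ℝ) ≤
        (#{d ∈ range p | P (w + q * (d : ℕ))} : ℝ) + #{d ∈ range p | κ * R ≤ ∑ j ∈ Icc (-(a + b : ℤ)) (a + b), (ctz a b S S' (w + q * (d : ℕ) + q * p * j) : ℝ) ∧ ¬ P (w + q * (d : ℕ))} := by
      exact_mod_cast h6
    refine le_trans ?_ (h5.trans h7)
    refine mul_le_mul_of_nonneg_right ?_ hp0.le
    linarith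
  have hsum1 : (#Ω : ℝ) * ((γ + e / 4) * p) ≤ ∑ w ∈ Ω, (#{d ∈ range p | P (w + q * (d : ℕ))} : ℝ) + p * (τ * e / 32 * R + τ * e / 32 * R) := by
    have h5 := Finset.sum_le_sum hcount
    rw [Finset.sum_const, nsmul_eq_mul, Finset.sum_add_distrib] at h5
    have h6 := hP.trans (mul_le_mul_of_nonneg_left hcard hp0.le)
    beta_reduce at h6
    linarith
  have hup := LRZ_up P p q (-(b * R : ℤ)) (a * R)
  have hsub : Ω ⊆ Ico (-(b * R : ℤ)) (a * R) := hΩ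
  rw [← Finset.sum_sdiff hsub] at hup
  have hlow : ((A : ℝ) * R - #Ω) * ((γ - τ * e / (64 * A)) * p) ≤ ∑ w ∈ Ico (-(b * R : ℤ)) (a * R) \ Ω, (#{d ∈ range p | P (w + q * (d : ℕ))} : ℝ) := by
    have h5 : (#(Ico (-(b * R : ℤ)) (a * R) \ Ω) : ℝ) = (A : ℝ) * R - #Ω := by
      rw [Finset.card_sdiff_of_subset hsub, Int.card_Ico, Nat.cast_sub]
      · have : ((a * R : ℤ) - -(b * R : ℤ)).toNat = (a + b) * R := by
          have e1 : (a * R : ℤ) - -(b * R : ℤ) = (((a + b) * R : ℕ) : ℤ) := by push_cast; ring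
          rw [e1, Int.toNat_natCast]
        rw [this, hA]
        push_cast
        ring
      · have h6 := Finset.card_le_card hsub
        rw [Int.card_Ico] at h6
        exact h6
    rw [← h5, ← nsmul_eq_mul, ← Finset.sum_const]
    refine Finset.sum_le_sum fun w hw => ?_
    have hw1 := Finset.mem_Ico.1 (Finset.mem_sdiff.1 hw).1
    refine hH1 q hq1 hqQ p ((le_max_right _ _).trans hp) w ?_ ?_
    · push_cast
      linarith [hw1.1]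
    · push_cast
      have := mul_comm (q : ℤ) (p : ℤ)
      linarith [hw1.2]
  have hH : (#{δ ∈ Ico (-(b * R : ℤ)) (a * R) | P δ} : ℝ) ≤ (γ + τ * e / (64 * A)) * (A * R) := by
    have h5 := hH2
    unfold H2Z at h5
    rw [hA]
    rw [hA] at h5
    push_cast
    push_cast at h5
    exact h5
  have hqp : (q : ℝ) * p ≤ τ * e / 32 * R := by linarith
  have hfin : p * ((#Ω : ℝ) * (γ + e / 4) + ((A : ℝ) * R - #Ω) * (γ - τ * e / (64 * A))) ≤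
      p * ((γ + τ * e / (64 * A)) * (A * R) + τ * e / 32 * R + (τ * e / 32 * R + τ * e / 32 * R)) := by
    have h8 : (p : ℝ) * ((#{δ ∈ Ico (-(b * R : ℤ)) (a * R) | P δ} : ℝ) + q * p) ≤ p * ((γ + τ * e / (64 * A)) * (A * R) + τ * e / 32 * R) :=
      mul_le_mul_of_nonneg_left (add_le_add hH hqp) hp0.le
    linarith
  have hfin2 := le_of_mul_le_mul_left hfin hp0
  obtain ⟨ε, hε⟩ : ∃ ε : ℝ, ε = τ * e / (64 * A) := ⟨_, rfl⟩
  have hεA : ε * (A * R) = τ * e * R / 64 := by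
    rw [hε]
    field_simp
  have hε0 : 0 < ε := by rw [hε]; positivity
  rw [← hε] at hfin2
  have h9 : τ * R * (e / 4) ≤ #Ω * (e / 4) := mul_le_mul_of_nonneg_right hΩc (by positivity)
  have h10 : 0 < τ * R * e := by positivity
  have h11 : 0 ≤ (#Ω : ℝ) * ε := by positivity
  nlinarith

end Pool.Agent.HF
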