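import Pool.Agent.helper19.HF.SpecA

/-!
# Row `hf:FEK` (MP_bf63dc_nt): Fekete for windows of progressions
-/

set_option autoImplicit false

namespace Pool.Agent.HF

open Finset

theorem FEK_add (g : ℕ → Prop) (Y s l l' : ℕ) : cw g Y s (l + l') = cw g Y s l + cw g (Y + s * l) s l' := by
  classical
  have h1 : ∀ (Y l : ℕ), cw g Y s l = ∑ x ∈ range l, (if g (Y + s * x) then 1 else 0) := by
    intro Y l
    unfold cw
    exact Finset.card_filter _ _
  rw [h1, h1, h1, Finset.sum_range_add]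
  congr 1
  refine Finset.sum_congr rfl fun x _ => ?_
  have h2 : Y + s * (l + x) = Y + s * l + s * x := by ring
  rw [h2]

theorem FEK_le (g : ℕ → Prop) (Y s l : ℕ) : cw g Y s l ≤ l := by
  classical
  unfold cw
  exact (Finset.card_filter_le _ _).trans (le_of_eq (Finset.card_range l))

/-- **FEK** -/
theorem FEK : FEK_stmt := by
  classical
  intro g V s hV hs
  obtain ⟨c, hc1, hc2⟩ : ∃ c : ℕ → ℕ, (∀ l, ∃ Y, V Y ∧ cw g Y s l = c l) ∧ ∀ l Y, V Y → c l ≤ cw g Y s l := by
    refine ⟨fun l => sInf {n | ∃ Y, V Y ∧ cw g Y s l = n}, fun l => ?_, fun l Y hY => Nat.sInf_le ⟨Y, hY, rfl⟩⟩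
    obtain ⟨Y, hY⟩ := hV
    exact Nat.sInf_mem (s := {n | ∃ Y, V Y ∧ cw g Y s l = n}) ⟨cw g Y s l, Y, hY, rfl⟩
  have hVm : ∀ (l Y : ℕ), V Y → V (Y + s * l) := by
    intro l Y hY
    induction l with
    | zero => simpa using hY
    | succ l ih =>
      have := hs _ ih
      have h2 : Y + s * (l + 1) = Y + s * l + s := by ring
      rw [h2]
      exact this
  have hcl : ∀ l, (c l : ℝ) ≤ l := by
    intro l
    obtain ⟨Y, -, hY⟩ := hc1 l
    rw [← hY]
    exact_mod_cast FEK_le g Y s l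
  have hsub : Subadditive fun l => -(c l : ℝ) := by
    intro m n
    obtain ⟨Y, hY, hYc⟩ := hc1 (m + n)
    have h1 := hc2 m Y hY
    have h2 := hc2 n (Y + s * m) (hVm m Y hY)
    have h3 := FEK_add g Y s m n
    have h4 : c m + c n ≤ c (m + n) := by omega
    have h5 : (c m : ℝ) + c n ≤ c (m + n) := by exact_mod_cast h4
    linarith
  have h01 : ∀ l : ℕ, -1 ≤ -(c l : ℝ) / l ∧ -(c l : ℝ) / l ≤ 0 := by
    intro l
    rcases Nat.eq_zero_or_pos l with h | h
    · rw [h]
      simp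
    · have hl : (0 : ℝ) < l := by exact_mod_cast h
      constructor
      · rw [le_div_iff₀ hl]
        linarith [hcl l]
      · apply div_nonpos_of_nonpos_of_nonneg
        · have : (0 : ℝ) ≤ c l := Nat.cast_nonneg _
          linarith
        · exact hl.le
  have hbdd : BddBelow (Set.range fun l : ℕ => -(c l : ℝ) / l) := by
    refine ⟨-1, ?_⟩
    rintro _ ⟨l, rfl⟩
    exact (h01 l).1
  have hlim := hsub.tendsto_lim hbdd
  refine ⟨-hsub.lim, ?_, ?_, ?_, ?_⟩
  · have := le_of_tendsto' hlim fun l => (h01 l).2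
    linarith
  · have := ge_of_tendsto' hlim fun l => (h01 l).1
    linarith
  · intro l
    obtain ⟨Y, hY, hYc⟩ := hc1 l
    refine ⟨Y, hY, ?_⟩
    rw [hYc]
    rcases Nat.eq_zero_or_pos l with h | h
    · have h0 := hcl l
      rw [h] at h0 ⊢
      simpa using h0
    · have hl : (0 : ℝ) < l := by exact_mod_cast h
      have h1 := hsub.lim_le_div hbdd h.ne'
      rw [le_div_iff₀ hl] at h1
      linarith
  · intro ε hε
    have h1 : ∀ᶠ l : ℕ in Filter.atTop, -(c l : ℝ) / l < hsub.lim + ε := hlim.eventually_lt_const (by linarith)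
    obtain ⟨l₀, hl₀⟩ := Filter.eventually_atTop.1 h1
    refine ⟨max l₀ 1, fun l hl Y hY => ?_⟩
    have h2 := hl₀ l ((le_max_left _ _).trans hl)
    have hl1 : 1 ≤ l := (le_max_right _ _).trans hl
    have hlp : (0 : ℝ) < l := by exact_mod_cast hl1
    rw [div_lt_iff₀ hlp] at h2
    have h3 : (c l : ℝ) ≤ cw g Y s l := by exact_mod_cast hc2 l Y hY
    linarith

end Pool.Agent.HF
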